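import Pool.Agent.J6H80.BG.Stm

/-!
# BG-SL (MP_4952d6_mp): the two-body functional on a large torus is at least the scattering energy
-/

set_option autoImplicit false

open MeasureTheory UnitAddTorus
open scoped ENNReal ContDiff Pointwise Topology

namespace Pool.Agent.J6H76.BG

open Pool.Agent.H751R2.LHY Pool.Agent.H751R2.LHY.ClipH44 Pool.Agent.J6H80.BG

noncomputable section

/-- `x ↦ x / ℓ` modulo one -/
def pl (ℓ : ℝ) (x : Fin 3 → ℝ) : T3 := fun a => ((x a / ℓ : ℝ) : UnitAddCircle)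

theorem pl_cont (ℓ : ℝ) : Continuous (pl ℓ) := by
  unfold pl
  exact continuous_pi fun a => (AddCircle.continuous_mk' 1).comp (by fun_prop)

/-- the box of side `ℓ` -/
def box (ℓ : ℝ) : Set (Fin 3 → ℝ) := {x | ∀ a, x a ∈ Set.Ioc (-(ℓ / 2)) (ℓ / 2)}

theorem box_meas (ℓ : ℝ) : MeasurableSet (box ℓ) :=
  MeasurableSet.univ_pi' (fun _ => measurableSet_Ioc)

theorem box_smul {ℓ : ℝ} (hℓ : 0 < ℓ) :
    ℓ • {x : Fin 3 → ℝ | ∀ i, x i ∈ Set.Ioc (-(1 / 2 : ℝ)) (-(1 / 2) + 1)} = box ℓ := by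
  ext x
  rw [Set.mem_smul_set_iff_inv_smul_mem₀ hℓ.ne']
  simp only [Set.mem_ofPred_eq, box, Pi.smul_apply, smul_eq_mul, Set.mem_Ioc]
  refine forall_congr' fun a => ?_
  rw [inv_mul_eq_div, lt_div_iff₀ hℓ, div_le_iff₀ hℓ]
  constructor <;> rintro ⟨h1, h2⟩ <;> constructor <;> linarith

theorem box_int {ℓ : ℝ} (hℓ : 0 < ℓ) (F : T3 → ℝ) :
    ∫ x in box ℓ, F (pl ℓ x) = ℓ ^ 3 * ∫ y, F y := by
  rw [integral_preimage F (fun _ => -(1 / 2 : ℝ))]
  have h := Measure.setIntegral_comp_smul_of_pos (volume : Measure (Fin 3 → ℝ))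
    (fun x => F (pl ℓ x)) {x : Fin 3 → ℝ | ∀ i, x i ∈ Set.Ioc (-(1 / 2 : ℝ)) (-(1 / 2) + 1)} hℓ
  rw [box_smul hℓ] at h
  have e2 : ∀ x : Fin 3 → ℝ, pl ℓ (ℓ • x) = fun i => ((x i : ℝ) : UnitAddCircle) := by
    intro x
    funext i
    simp only [pl, Pi.smul_apply, smul_eq_mul]
    rw [mul_div_cancel_left₀ _ hℓ.ne']
  simp only [e2, Module.finrank_fintype_fun_eq_card, Fintype.card_fin, smul_eq_mul] at h
  rw [h]
  field_simp

/-- the linear form `x ↦ 2π n·x / ℓ` -/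
def kn (ℓ : ℝ) (n : Mom) : (Fin 3 → ℝ) →L[ℝ] ℝ :=
  ∑ a, (2 * Real.pi * n a / ℓ) • (ContinuousLinearMap.proj a : (Fin 3 → ℝ) →L[ℝ] ℝ)

theorem kn_apply (ℓ : ℝ) (n : Mom) (x : Fin 3 → ℝ) :
    kn ℓ n x = ∑ a, 2 * Real.pi * n a * (x a / ℓ) := by
  simp only [kn, _root_.sum_apply, _root_.smul_apply,
    ContinuousLinearMap.proj_apply, smul_eq_mul]
  refine Finset.sum_congr rfl fun a _ => ?_
  ring

theorem kn_single (ℓ : ℝ) (n : Mom) (a : Fin 3) :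
    kn ℓ n (Pi.single a 1) = 2 * Real.pi * n a / ℓ := by
  rw [kn_apply, Finset.sum_eq_single a]
  · simp only [Pi.single_eq_same]
    ring
  · intro b _ hb
    simp [Pi.single_eq_of_ne hb]
  · intro h
    exact absurd (Finset.mem_univ a) h

theorem mF_pl (ℓ : ℝ) (n : Mom) (x : Fin 3 → ℝ) :
    mFourier n (pl ℓ x) = Complex.exp ((kn ℓ n x : ℝ) * Complex.I) := by
  have := mFourier_coe n (fun a => x a / ℓ)
  rw [kn_apply]
  exact this

/-- the trigonometric polynomial on `ℝ³` -/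
def Uf (B0 : Finset Mom) (c : Mom → ℝ) (ℓ : ℝ) (x : Fin 3 → ℝ) : ℝ :=
  ∑ n ∈ B0, c n * Real.cos (kn ℓ n x)

theorem Uf_eq (B0 : Finset Mom) (c : Mom → ℝ) (ℓ : ℝ) (x : Fin 3 → ℝ) :
    wf B0 c (pl ℓ x) = Uf B0 c ℓ x := by
  unfold wf Uf cs
  refine Finset.sum_congr rfl fun n _ => ?_
  rw [mF_pl, Complex.exp_ofReal_mul_I_re]

theorem Uf_smooth (B0 : Finset Mom) (c : Mom → ℝ) (ℓ : ℝ) : ContDiff ℝ ∞ (Uf B0 c ℓ) := by
  unfold Uf
  refine ContDiff.sum fun n _ => ?_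
  exact contDiff_const.mul (Real.contDiff_cos.comp (kn ℓ n).contDiff)

theorem Uf_deriv (B0 : Finset Mom) (c : Mom → ℝ) (ℓ : ℝ) (x : Fin 3 → ℝ) (a : Fin 3) :
    fderiv ℝ (Uf B0 c ℓ) x (Pi.single a 1) =
      -∑ n ∈ B0, c n * (2 * Real.pi * n a / ℓ) * Real.sin (kn ℓ n x) := by
  have h : HasFDerivAt (Uf B0 c ℓ)
      (∑ n ∈ B0, c n • (-Real.sin (kn ℓ n x) • kn ℓ n)) x := by
    unfold Uf
    refine HasFDerivAt.fun_sum fun n _ => ?_
    exact ((kn ℓ n).hasFDerivAt.cos).const_mul (c n)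
  rw [h.fderiv, _root_.sum_apply, ← Finset.sum_neg_distrib]
  refine Finset.sum_congr rfl fun n _ => ?_
  simp only [_root_.smul_apply, smul_eq_mul, kn_single]
  ring

/-- `|∑ a_n e_n|²` -/
def Pf (B0 : Finset Mom) (b : Mom → ℝ) (y : T3) : ℝ := ‖∑ n ∈ B0, (b n : ℂ) * mFourier n y‖ ^ 2

theorem Pf_nonneg (B0 : Finset Mom) (b : Mom → ℝ) (y : T3) : 0 ≤ Pf B0 b y := sq_nonneg _

theorem Pf_cont (B0 : Finset Mom) (b : Mom → ℝ) : Continuous (Pf B0 b) := by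
  unfold Pf
  refine (Continuous.norm ?_).pow 2
  exact continuous_finsetSum _ fun n _ => continuous_const.mul (mFourier n).continuous

theorem Pf_int (B0 : Finset Mom) (b : Mom → ℝ) : ∫ y, Pf B0 b y = ∑ n ∈ B0, b n ^ 2 := by
  unfold Pf
  rw [parseval_poly B0 (fun n => (b n : ℂ))]
  refine Finset.sum_congr rfl fun n _ => ?_
  rw [Complex.norm_real, Real.norm_eq_abs, sq_abs]

theorem Uf_sq_le (B0 : Finset Mom) (c : Mom → ℝ) (ℓ : ℝ) (x : Fin 3 → ℝ) :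
    Uf B0 c ℓ x ^ 2 ≤ Pf B0 c (pl ℓ x) := by
  have h : Uf B0 c ℓ x = (∑ n ∈ B0, (c n : ℂ) * mFourier n (pl ℓ x)).re := by
    rw [← Uf_eq, Complex.re_sum]
    unfold wf cs
    exact Finset.sum_congr rfl fun n _ => by rw [Complex.re_ofReal_mul]
  rw [h]
  unfold Pf
  rw [← sq_abs]
  exact pow_le_pow_left₀ (abs_nonneg _) (Complex.abs_re_le_norm _) 2

theorem Ud_sq_le (B0 : Finset Mom) (c : Mom → ℝ) (ℓ : ℝ) (x : Fin 3 → ℝ) (a : Fin 3) :
    (fderiv ℝ (Uf B0 c ℓ) x (Pi.single a 1)) ^ 2 ≤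
      Pf B0 (fun n => c n * (2 * Real.pi * n a / ℓ)) (pl ℓ x) := by
  have h : ∑ n ∈ B0, c n * (2 * Real.pi * n a / ℓ) * Real.sin (kn ℓ n x) =
      (∑ n ∈ B0, ((c n * (2 * Real.pi * n a / ℓ) : ℝ) : ℂ) * mFourier n (pl ℓ x)).im := by
    rw [Complex.im_sum]
    exact Finset.sum_congr rfl fun n _ => by
      rw [Complex.im_ofReal_mul, mF_pl, Complex.exp_ofReal_mul_I_im]
  rw [Uf_deriv, h, neg_sq]
  unfold Pf
  rw [← sq_abs]
  exact pow_le_pow_left₀ (abs_nonneg _) (Complex.abs_im_le_norm _) 2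

/-! ### the cut-off -/

/-- a fixed bump function -/
def bmp : ContDiffBump (0 : Fin 3 → ℝ) := ⟨1, 2, one_pos, one_lt_two⟩

theorem bmp_fderiv_bdd : ∃ C : ℝ, 0 ≤ C ∧ ∀ x : Fin 3 → ℝ, ∀ a : Fin 3,
    |fderiv ℝ bmp x (Pi.single a 1)| ≤ C := by
  have h1 : Continuous (fderiv ℝ bmp) := (bmp.contDiff (n := 1)).continuous_fderiv (by simp)
  have h2 : HasCompactSupport (fderiv ℝ bmp) := bmp.hasCompactSupport.fderiv ℝ
  obtain ⟨C, hC⟩ := h1.bounded_above_of_compact_support h2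
  refine ⟨max C 0, le_max_right _ _, fun x a => ?_⟩
  have h3 : ‖fderiv ℝ bmp x (Pi.single a 1)‖ ≤ ‖fderiv ℝ bmp x‖ * ‖(Pi.single a 1 : Fin 3 → ℝ)‖ :=
    ContinuousLinearMap.le_opNorm _ _
  have h4 : ‖(Pi.single a 1 : Fin 3 → ℝ)‖ = 1 := by
    rw [Pi.norm_single, norm_one]
  rw [h4, mul_one] at h3
  exact (h3.trans (hC x)).trans (le_max_left _ _)

/-- the rescaled bump function -/
def ch (L : ℝ) (x : Fin 3 → ℝ) : ℝ := bmp (L⁻¹ • x)

theorem ch_smooth (L : ℝ) : ContDiff ℝ ∞ (ch L) := by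
  unfold ch
  exact bmp.contDiff.comp (contDiff_const_smul L⁻¹)

theorem ch_nonneg (L : ℝ) (x : Fin 3 → ℝ) : 0 ≤ ch L x := bmp.nonneg

theorem ch_le (L : ℝ) (x : Fin 3 → ℝ) : ch L x ≤ 1 := bmp.le_one

theorem ch_one {L : ℝ} (hL : 0 < L) {x : Fin 3 → ℝ} (hx : ‖x‖ ≤ L) : ch L x = 1 := by
  unfold ch
  apply bmp.one_of_mem_closedBall
  rw [mem_closedBall_zero_iff, norm_smul, norm_inv, Real.norm_eq_abs, abs_of_pos hL]
  show L⁻¹ * ‖x‖ ≤ 1
  rw [inv_mul_le_iff₀ hL]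
  linarith

theorem ch_zero {L : ℝ} (hL : 0 < L) {x : Fin 3 → ℝ} (hx : 2 * L < ‖x‖) : ch L x = 0 := by
  unfold ch
  apply bmp.zero_of_le_dist
  rw [dist_zero_right, norm_smul, norm_inv, Real.norm_eq_abs, abs_of_pos hL]
  show 2 ≤ L⁻¹ * ‖x‖
  rw [le_inv_mul_iff₀ hL]
  linarith

theorem ch_deriv {L : ℝ} (x v : Fin 3 → ℝ) :
    fderiv ℝ (ch L) x v = L⁻¹ * fderiv ℝ bmp (L⁻¹ • x) v := by
  unfold ch
  rw [fderiv_comp_smul]
  rfl

theorem ch_deriv_zero {L : ℝ} (hL : 0 < L) {x : Fin 3 → ℝ} (hx : 2 * L < ‖x‖) (v : Fin 3 → ℝ) :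
    fderiv ℝ (ch L) x v = 0 := by
  have h : ch L =ᶠ[𝓝 x] fun _ => 0 := by
    have ho : IsOpen {y : Fin 3 → ℝ | 2 * L < ‖y‖} := isOpen_lt continuous_const continuous_norm
    filter_upwards [ho.mem_nhds hx] with y hy
    exact ch_zero hL hy
  rw [h.fderiv_eq]
  simp

/-! ### the test function -/

/-- the test function -/
def tf (B0 : Finset Mom) (c : Mom → ℝ) (ℓ L : ℝ) (x : Fin 3 → ℝ) : ℝ :=
  1 - ch L x * Uf B0 c ℓ x

theorem tf_test (B0 : Finset Mom) (c : Mom → ℝ) (ℓ : ℝ) {L : ℝ} (hL : 0 < L) :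
    IsTest (tf B0 c ℓ L) := by
  refine ⟨contDiff_const.sub ((ch_smooth L).mul (Uf_smooth B0 c ℓ)), 2 * L, fun x hx => ?_⟩
  unfold tf
  rw [ch_zero hL hx]
  ring

theorem tf_deriv (B0 : Finset Mom) (c : Mom → ℝ) (ℓ L : ℝ) (x v : Fin 3 → ℝ) :
    fderiv ℝ (tf B0 c ℓ L) x v =
      -(ch L x * fderiv ℝ (Uf B0 c ℓ) x v + Uf B0 c ℓ x * fderiv ℝ (ch L) x v) := by
  have h1 : DifferentiableAt ℝ (ch L) x := (ch_smooth L).differentiable (by simp) x
  have h2 : DifferentiableAt ℝ (Uf B0 c ℓ) x := (Uf_smooth B0 c ℓ).differentiable (by simp) x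
  have h3 : HasFDerivAt (tf B0 c ℓ L)
      (-(ch L x • fderiv ℝ (Uf B0 c ℓ) x + Uf B0 c ℓ x • fderiv ℝ (ch L) x)) x :=
    (h1.hasFDerivAt.mul h2.hasFDerivAt).const_sub 1
  rw [h3.fderiv]
  rfl

/-- coefficients of the derivative -/
def dc (c : Mom → ℝ) (ℓ : ℝ) (a : Fin 3) (n : Mom) : ℝ := c n * (2 * Real.pi * n a / ℓ)

theorem young {α p q : ℝ} (hα : 0 < α) :
    (p + q) ^ 2 ≤ (1 + α) * p ^ 2 + (1 + 1 / α) * q ^ 2 := by
  have h : (1 + α) * p ^ 2 + (1 + 1 / α) * q ^ 2 - (p + q) ^ 2 = (α * p - q) ^ 2 / α := by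
    field_simp
    ring
  have h2 : 0 ≤ (α * p - q) ^ 2 / α := by positivity
  linarith

theorem mem_box {L ℓ : ℝ} (hℓ : 4 * L < ℓ) {x : Fin 3 → ℝ} (hx : ‖x‖ ≤ 2 * L) : x ∈ box ℓ := by
  intro a
  have h1 : |x a| ≤ 2 * L := (norm_le_pi_norm x a).trans hx
  rw [abs_le] at h1
  constructor <;> linarith [h1.1, h1.2]

theorem tf_grad {C α L ℓ : ℝ} (hC : ∀ x : Fin 3 → ℝ, ∀ a : Fin 3,
    |fderiv ℝ bmp x (Pi.single a 1)| ≤ C) (hα : 0 < α) (hL : 0 < L) (hℓ : 4 * L < ℓ)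
    (B0 : Finset Mom) (c : Mom → ℝ) (x : Fin 3 → ℝ) (a : Fin 3) :
    (fderiv ℝ (tf B0 c ℓ L) x (Pi.single a 1)) ^ 2 ≤
      (box ℓ).indicator (fun x => (1 + α) * Pf B0 (dc c ℓ a) (pl ℓ x) +
        (1 + 1 / α) * (C / L) ^ 2 * Pf B0 c (pl ℓ x)) x := by
  have hnn : ∀ x : Fin 3 → ℝ, 0 ≤ (1 + α) * Pf B0 (dc c ℓ a) (pl ℓ x) +
        (1 + 1 / α) * (C / L) ^ 2 * Pf B0 c (pl ℓ x) := by
    intro x
    have h1 := Pf_nonneg B0 (dc c ℓ a) (pl ℓ x)
    have h2 := Pf_nonneg B0 c (pl ℓ x)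
    positivity
  by_cases hx : ‖x‖ ≤ 2 * L
  · rw [Set.indicator_of_mem (mem_box hℓ hx), tf_deriv, neg_sq]
    refine (young hα).trans ?_
    have h1 : (ch L x * fderiv ℝ (Uf B0 c ℓ) x (Pi.single a 1)) ^ 2 ≤
        Pf B0 (dc c ℓ a) (pl ℓ x) := by
      rw [mul_pow]
      have h2 : ch L x ^ 2 ≤ 1 := pow_le_one₀ (ch_nonneg L x) (ch_le L x)
      calc _ ≤ 1 * (fderiv ℝ (Uf B0 c ℓ) x (Pi.single a 1)) ^ 2 :=
            mul_le_mul_of_nonneg_right h2 (sq_nonneg _)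
        _ ≤ _ := by rw [one_mul]; exact Ud_sq_le B0 c ℓ x a
    have h3 : (Uf B0 c ℓ x * fderiv ℝ (ch L) x (Pi.single a 1)) ^ 2 ≤
        (C / L) ^ 2 * Pf B0 c (pl ℓ x) := by
      rw [mul_pow, mul_comm]
      have h4 : (fderiv ℝ (ch L) x (Pi.single a 1)) ^ 2 ≤ (C / L) ^ 2 := by
        rw [ch_deriv, ← sq_abs, abs_mul, abs_of_pos (inv_pos.2 hL), inv_mul_eq_div]
        have h5 := hC (L⁻¹ • x) a
        have h6 := abs_nonneg (fderiv ℝ bmp (L⁻¹ • x) (Pi.single a 1))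
        gcongr
      exact mul_le_mul h4 (Uf_sq_le B0 c ℓ x) (sq_nonneg _) (sq_nonneg _)
    have h7 : 0 ≤ 1 + 1 / α := by positivity
    have h8 := mul_le_mul_of_nonneg_left h1 (show (0 : ℝ) ≤ 1 + α by linarith)
    have h9 := mul_le_mul_of_nonneg_left h3 h7
    linarith
  · push Not at hx
    rw [tf_deriv, ch_zero hL hx, ch_deriv_zero hL hx]
    simp only [zero_mul, mul_zero, add_zero, neg_zero]
    rw [zero_pow two_ne_zero]
    exact Set.indicator_nonneg (fun x _ => hnn x) x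

theorem tf_pot {L ℓ : ℝ} (B0 : Finset Mom) (c : Mom → ℝ) {w : ℝ} (hw : 0 ≤ w) (x : Fin 3 → ℝ) :
    w * tf B0 c ℓ L x ^ 2 ≤ w * (1 - ch L x) + w * (1 - Uf B0 c ℓ x) ^ 2 := by
  rw [← mul_add]
  refine mul_le_mul_of_nonneg_left ?_ hw
  unfold tf
  have h0 := ch_nonneg L x
  have h1 := ch_le L x
  set h := ch L x
  set u := Uf B0 c ℓ x
  have e : (1 - h * u) ^ 2 = (1 - h) + h * (1 - u) ^ 2 - h * (1 - h) * u ^ 2 := by ring
  have h2 : 0 ≤ h * (1 - h) * u ^ 2 := mul_nonneg (mul_nonneg h0 (by linarith)) (sq_nonneg _)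
  have h3 : h * (1 - u) ^ 2 ≤ 1 * (1 - u) ^ 2 := mul_le_mul_of_nonneg_right h1 (sq_nonneg _)
  linarith

/-! ### the energy of the test function -/

theorem main_bound {m : ℝ} (hm : 0 < m) {v : (Fin 3 → ℝ) → ℝ} (hvm : Measurable v)
    (hv : Integrable v) (h0 : ∀ x, 0 ≤ v x) {C : ℝ} (hC : ∀ x : Fin 3 → ℝ, ∀ a : Fin 3,
    |fderiv ℝ bmp x (Pi.single a 1)| ≤ C) {α L ℓ : ℝ} (hα : 0 < α) (hL : 0 < L) (hℓ : 4 * L < ℓ)
    (B0 : Finset Mom) (c : Mom → ℝ) :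
    dirE m v (tf B0 c ℓ L) ≤
      (1 + α) * (ℓ ^ 3 * ∑ n ∈ B0, 2 * (1 / (2 * m) * (2 * Real.pi / ℓ) ^ 2 * H751R2.LHY.sq n) * c n ^ 2) +
      (1 + 1 / α) * (3 / m * (C / L) ^ 2) * (ℓ ^ 3 * ∑ n ∈ B0, c n ^ 2) +
      (∫ x, v x * (1 - ch L x)) + ℓ ^ 3 * ∫ y, Wr v ℓ y * (1 - wf B0 c y) ^ 2 := by
  have hℓ0 : 0 < ℓ := by linarith
  -- the function on the torus
  set G : T3 → ℝ := fun y => 1 / m * ∑ a : Fin 3, ((1 + α) * Pf B0 (dc c ℓ a) y +
        (1 + 1 / α) * (C / L) ^ 2 * Pf B0 c y) with hG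
  have hGc : Continuous G := by
    refine continuous_const.mul (continuous_finsetSum _ fun a _ => ?_)
    exact (continuous_const.mul (Pf_cont _ _)).add (continuous_const.mul (Pf_cont _ _))
  have hPi : ∀ b : Mom → ℝ, Integrable (Pf B0 b) := fun b => cont_integrable_real (Pf_cont B0 b)
  have hGi : ∫ y, G y = (1 + α) * (∑ n ∈ B0, 2 * (1 / (2 * m) * (2 * Real.pi / ℓ) ^ 2 * H751R2.LHY.sq n) * c n ^ 2) +
      (1 + 1 / α) * (3 / m * (C / L) ^ 2) * (∑ n ∈ B0, c n ^ 2) := by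
    rw [hG, integral_const_mul, integral_finsetSum]
    · have e1 : ∀ a : Fin 3, ∫ y, ((1 + α) * Pf B0 (dc c ℓ a) y +
          (1 + 1 / α) * (C / L) ^ 2 * Pf B0 c y) = (1 + α) * (∑ n ∈ B0, dc c ℓ a n ^ 2) +
            (1 + 1 / α) * (C / L) ^ 2 * (∑ n ∈ B0, c n ^ 2) := by
        intro a
        rw [integral_add ((hPi _).const_mul _) ((hPi _).const_mul _), integral_const_mul,
          integral_const_mul, Pf_int, Pf_int]
      simp_rw [e1]
      rw [Finset.sum_add_distrib, ← Finset.mul_sum, Finset.sum_comm]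
      simp only [Finset.sum_const, Finset.card_univ, Fintype.card_fin, nsmul_eq_mul]
      have e2 : ∑ n ∈ B0, ∑ a : Fin 3, dc c ℓ a n ^ 2 =
          m * ∑ n ∈ B0, 2 * (1 / (2 * m) * (2 * Real.pi / ℓ) ^ 2 * H751R2.LHY.sq n) * c n ^ 2 := by
        rw [Finset.mul_sum]
        refine Finset.sum_congr rfl fun n _ => ?_
        unfold dc H751R2.LHY.sq
        rw [Finset.mul_sum, Finset.mul_sum, Finset.sum_mul, Finset.mul_sum]
        refine Finset.sum_congr rfl fun a _ => ?_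
        field_simp
      rw [e2]
      push_cast
      field_simp
    · intro a _
      exact ((hPi _).const_mul _).add ((hPi _).const_mul _)
  -- bound of the integrand
  have hUc : Continuous (Uf B0 c ℓ) := (Uf_smooth B0 c ℓ).continuous
  have hcc : Continuous (ch L) := (ch_smooth L).continuous
  have hUb : ∀ x, |Uf B0 c ℓ x| ≤ ∑ n ∈ B0, |c n| := by
    intro x
    unfold Uf
    refine (Finset.abs_sum_le_sum_abs _ _).trans (Finset.sum_le_sum fun n _ => ?_)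
    rw [abs_mul]
    exact mul_le_of_le_one_right (abs_nonneg _) (Real.abs_cos_le_one _)
  have i1 : Integrable ((box ℓ).indicator (fun x => G (pl ℓ x))) := by
    rw [integrable_indicator_iff (box_meas ℓ)]
    obtain ⟨K, hK⟩ : ∃ K, ∀ y, ‖G y‖ ≤ K := by
      obtain ⟨K, hK⟩ := (isCompact_range hGc.norm).bddAbove
      exact ⟨K, fun y => hK ⟨y, rfl⟩⟩
    have hfin : (volume : Measure (Fin 3 → ℝ)) (box ℓ) ≠ ⊤ := by
      have : box ℓ ⊆ Metric.closedBall 0 (ℓ / 2) := by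
        intro x hx
        rw [mem_closedBall_zero_iff, pi_norm_le_iff_of_nonneg (by linarith)]
        intro a
        have := hx a
        rw [Real.norm_eq_abs, abs_le]
        exact ⟨this.1.le, this.2⟩
      exact ((measure_mono this).trans_lt (measure_closedBall_lt_top)).ne
    refine Measure.integrableOn_of_bounded (M := K) hfin
      ((hGc.comp (pl_cont ℓ)).aestronglyMeasurable) ?_
    exact Filter.Eventually.of_forall fun x => hK _
  have i2 : Integrable (fun x => v x * (1 - ch L x)) := by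
    refine hv.mul_bdd (c := 1) (continuous_const.sub hcc).aestronglyMeasurable
      (Filter.Eventually.of_forall fun x => ?_)
    rw [Real.norm_eq_abs, abs_le]
    constructor <;> linarith [ch_nonneg L x, ch_le L x]
  have i3 : Integrable (fun x => v x * (1 - Uf B0 c ℓ x) ^ 2) := by
    refine hv.mul_bdd (c := (1 + ∑ n ∈ B0, |c n|) ^ 2)
      ((continuous_const.sub hUc).pow 2).aestronglyMeasurable
      (Filter.Eventually.of_forall fun x => ?_)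
    rw [norm_pow, Real.norm_eq_abs]
    refine pow_le_pow_left₀ (abs_nonneg _) ?_ 2
    refine (abs_sub _ _).trans ?_
    rw [abs_one]
    linarith [hUb x]
  have hmono : dirE m v (tf B0 c ℓ L) ≤ ∫ x, ((box ℓ).indicator (fun x => G (pl ℓ x)) x +
      v x * (1 - ch L x) + v x * (1 - Uf B0 c ℓ x) ^ 2) := by
    unfold dirE
    refine integral_mono_of_nonneg (Filter.Eventually.of_forall fun x => ?_)
      ((i1.add i2).add i3) (Filter.Eventually.of_forall fun x => ?_)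
    · have h1 := h0 x
      have h2 : 0 ≤ ∑ a : Fin 3, (fderiv ℝ (tf B0 c ℓ L) x (Pi.single a 1)) ^ 2 :=
        Finset.sum_nonneg fun _ _ => sq_nonneg _
      simp only [Pi.zero_apply]
      positivity
    · have h1 : ∑ a : Fin 3, (fderiv ℝ (tf B0 c ℓ L) x (Pi.single a 1)) ^ 2 ≤
          ∑ a : Fin 3, (box ℓ).indicator (fun x => (1 + α) * Pf B0 (dc c ℓ a) (pl ℓ x) +
            (1 + 1 / α) * (C / L) ^ 2 * Pf B0 c (pl ℓ x)) x :=
        Finset.sum_le_sum fun a _ => tf_grad hC hα hL hℓ B0 c x a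
      have h2 : 1 / m * ∑ a : Fin 3, (box ℓ).indicator (fun x => (1 + α) * Pf B0 (dc c ℓ a) (pl ℓ x) +
            (1 + 1 / α) * (C / L) ^ 2 * Pf B0 c (pl ℓ x)) x = (box ℓ).indicator (fun x => G (pl ℓ x)) x := by
        by_cases hx : x ∈ box ℓ
        · simp only [Set.indicator_of_mem hx, hG]
        · simp only [Set.indicator_of_notMem hx, Finset.sum_const_zero, mul_zero]
      have h3 := tf_pot (L := L) (ℓ := ℓ) B0 c (h0 x) x
      have h4 := mul_le_mul_of_nonneg_left h1 (show 0 ≤ 1 / m by positivity)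
      rw [h2] at h4
      simp only
      linarith
  have e3 : ∫ x, ((box ℓ).indicator (fun x => G (pl ℓ x)) x +
      v x * (1 - ch L x) + v x * (1 - Uf B0 c ℓ x) ^ 2) =
      ℓ ^ 3 * (∫ y, G y) + (∫ x, v x * (1 - ch L x)) +
        ℓ ^ 3 * ∫ y, Wr v ℓ y * (1 - wf B0 c y) ^ 2 := by
    have a1 : ∫ x, (((box ℓ).indicator (fun x => G (pl ℓ x)) x + v x * (1 - ch L x)) +
        v x * (1 - Uf B0 c ℓ x) ^ 2) = (∫ x, ((box ℓ).indicator (fun x => G (pl ℓ x)) x +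
          v x * (1 - ch L x))) + ∫ x, v x * (1 - Uf B0 c ℓ x) ^ 2 := integral_add (i1.add i2) i3
    have a2 : ∫ x, ((box ℓ).indicator (fun x => G (pl ℓ x)) x + v x * (1 - ch L x)) =
        (∫ x, (box ℓ).indicator (fun x => G (pl ℓ x)) x) + ∫ x, v x * (1 - ch L x) :=
      integral_add i1 i2
    rw [a1, a2, integral_indicator (box_meas ℓ), box_int hℓ0 G]
    congr 1
    have h5 := Wr_integral hvm hv h0 hℓ0 (f := fun y => (1 - wf B0 c y) ^ 2)
      (((continuous_const.sub (wf_cont B0 c)).pow 2).measurable) (fun y => sq_nonneg _)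
    rw [h5]
    have h6 : ∀ x, wf B0 c (fun a => ((x a / ℓ : ℝ) : UnitAddCircle)) = Uf B0 c ℓ x :=
      fun x => Uf_eq B0 c ℓ x
    simp only [h6]
    field_simp
  rw [e3, hGi] at hmono
  linarith

theorem tail_zero {v : (Fin 3 → ℝ) → ℝ} (hv : Integrable v) :
    Filter.Tendsto (fun L : ℝ => ∫ x, v x * (1 - ch L x)) Filter.atTop (𝓝 0) := by
  have h : Filter.Tendsto (fun L : ℝ => ∫ x, v x * (1 - ch L x)) Filter.atTop
      (𝓝 (∫ _x : Fin 3 → ℝ, (0 : ℝ))) := by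
    refine tendsto_integral_filter_of_dominated_convergence (fun x => |v x|) ?_ ?_ hv.abs ?_
    · refine Filter.Eventually.of_forall fun L => ?_
      exact hv.aestronglyMeasurable.mul
        ((continuous_const.sub (ch_smooth L).continuous).aestronglyMeasurable)
    · refine Filter.Eventually.of_forall fun L => Filter.Eventually.of_forall fun x => ?_
      rw [norm_mul, Real.norm_eq_abs, Real.norm_eq_abs]
      refine mul_le_of_le_one_right (abs_nonneg _) ?_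
      rw [abs_le]
      constructor <;> linarith [ch_nonneg L x, ch_le L x]
    · refine Filter.Eventually.of_forall fun x => ?_
      refine tendsto_const_nhds.congr' ?_
      filter_upwards [Filter.eventually_ge_atTop (max 1 ‖x‖)] with L hL
      rw [ch_one (lt_of_lt_of_le one_pos ((le_max_left _ _).trans hL)) ((le_max_right _ _).trans hL)]
      ring
  simpa using h

theorem dirE_nonneg {m : ℝ} (hm : 0 < m) {v : (Fin 3 → ℝ) → ℝ} (h0 : ∀ x, 0 ≤ v x)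
    (f : (Fin 3 → ℝ) → ℝ) : 0 ≤ dirE m v f := by
  unfold dirE
  refine integral_nonneg fun x => ?_
  have h1 := h0 x
  have h2 : 0 ≤ ∑ a : Fin 3, (fderiv ℝ f x (Pi.single a 1)) ^ 2 :=
    Finset.sum_nonneg fun _ _ => sq_nonneg _
  simp only [Pi.zero_apply]
  positivity

theorem scatG_le {m : ℝ} (hm : 0 < m) {v : (Fin 3 → ℝ) → ℝ} (h0 : ∀ x, 0 ≤ v x)
    {f : (Fin 3 → ℝ) → ℝ} (hf : IsTest f) : scatG m v ≤ dirE m v f := by
  unfold scatG
  refine csInf_le ⟨0, ?_⟩ ⟨f, hf, rfl⟩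
  rintro E ⟨g, -, rfl⟩
  exact dirE_nonneg hm h0 g

theorem scatG_nonneg {m : ℝ} (hm : 0 < m) {v : (Fin 3 → ℝ) → ℝ} (h0 : ∀ x, 0 ≤ v x) :
    0 ≤ scatG m v := by
  unfold scatG
  refine Real.sInf_nonneg ?_
  rintro E ⟨g, -, rfl⟩
  exact dirE_nonneg hm h0 g

theorem t_SL : S_SL := by
  intro m hm v hvm hv h0 _ μ hμ ε hε
  obtain ⟨C, hC0, hC⟩ := bmp_fderiv_bdd
  set g := scatG m v with hg
  have hg0 : 0 ≤ g := scatG_nonneg hm h0
  set α : ℝ := ε / (2 * (g + 1)) with hα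
  have hα0 : 0 < α := by positivity
  have hαg : α * g ≤ ε / 2 := by
    rw [hα, div_mul_eq_mul_div, div_le_div_iff₀ (by positivity) (by norm_num)]
    nlinarith
  -- choice of `L`
  have hlim : Filter.Tendsto (fun L : ℝ => (1 + 1 / α) * (3 / m * (C / L) ^ 2)) Filter.atTop
      (𝓝 0) := by
    have h1 : Filter.Tendsto (fun L : ℝ => C / L) Filter.atTop (𝓝 0) :=
      Filter.Tendsto.div_atTop tendsto_const_nhds Filter.tendsto_id
    have h2 := ((h1.pow 2).const_mul (3 / m)).const_mul (1 + 1 / α)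
    simpa using h2
  obtain ⟨L, hL1, hL2, hL3⟩ := ((Filter.eventually_ge_atTop (1 : ℝ)).and
    ((hlim.eventually (gt_mem_nhds (show (0 : ℝ) < 2 * μ by linarith))).and
    ((tail_zero hv).eventually (gt_mem_nhds (show (0 : ℝ) < ε / 2 by linarith))))).exists
  have hL0 : 0 < L := by linarith
  refine ⟨4 * L + 1, by linarith, fun ℓ hℓ B0 _ c _ => ?_⟩
  have hℓ1 : 4 * L < ℓ := by linarith
  have hℓ0 : 0 < ℓ := by linarith
  have hmb := main_bound hm hvm hv h0 hC hα0 hL0 hℓ1 B0 c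
  have hG := (scatG_le hm h0 (tf_test B0 c ℓ hL0)).trans hmb
  set S := ℓ ^ 3 * ∑ n ∈ B0, 2 * (1 / (2 * m) * (2 * Real.pi / ℓ) ^ 2 * H751R2.LHY.sq n) * c n ^ 2 with hS
  set om := ℓ ^ 3 * ∑ n ∈ B0, c n ^ 2 with hom
  set I := ℓ ^ 3 * ∫ y, Wr v ℓ y * (1 - wf B0 c y) ^ 2 with hI
  have hom0 : 0 ≤ om := by positivity
  have hI0 : 0 ≤ I := by
    refine mul_nonneg (by positivity) (integral_nonneg fun y => ?_)
    exact mul_nonneg ENNReal.toReal_nonneg (sq_nonneg _)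
  have hQ : ℓ ^ 3 * Qf (Wr v ℓ) (1 / (2 * m) * (2 * Real.pi / ℓ) ^ 2) μ B0 c = I + S + 2 * μ * om := by
    unfold Qf
    rw [hI, hS, hom]
    have e : ∑ n ∈ B0, (2 * (1 / (2 * m) * (2 * Real.pi / ℓ) ^ 2 * H751R2.LHY.sq n) + 2 * μ) * c n ^ 2 =
        ∑ n ∈ B0, 2 * (1 / (2 * m) * (2 * Real.pi / ℓ) ^ 2 * H751R2.LHY.sq n) * c n ^ 2 +
          2 * μ * ∑ n ∈ B0, c n ^ 2 := by
      rw [Finset.mul_sum, ← Finset.sum_add_distrib]
      exact Finset.sum_congr rfl fun n _ => by ring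
    rw [e]
    ring
  rw [hQ]
  set Q := I + S + 2 * μ * om with hQd
  have hμom : 0 ≤ 2 * μ * om := by positivity
  have h1 : (1 + 1 / α) * (3 / m * (C / L) ^ 2) * om ≤ 2 * μ * om :=
    mul_le_mul_of_nonneg_right hL2.le hom0
  have h2 : g ≤ (1 + α) * Q + ε / 2 := by
    have h3 : (1 + α) * Q = (1 + α) * S + 2 * μ * om + I + α * (I + 2 * μ * om) := by
      rw [hQd]; ring
    have h4 : 0 ≤ α * (I + 2 * μ * om) := by positivity
    linarith
  by_cases hc : g ≤ Q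
  · linarith
  · push Not at hc
    have h5 : α * Q ≤ α * g := mul_le_mul_of_nonneg_left hc.le hα0.le
    linarith

end

end Pool.Agent.J6H76.BG
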